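import Pool.Agent.Helper92.TN.StN

/-!
# Project T3K, module NHT: the Fourier series of `HK`, `A ≥ 1`
-/

set_option autoImplicit false

open MeasureTheory Set Filter

namespace Pool.Agent.Helper88.TN

open Pool.Agent.Helper14.CV (G0 Homog EqC act StFar)
open Pool.Agent.Helper28.WK
open Pool.Agent.Helper14.WK
open Pool.Agent.Helper28.LV
open Pool.Agent.Helper76.TG
open Pool.Agent.Helper28.TK
open Pool.Agent.Helper76.TX (Sg)
open Pool.Agent.Helper92.TN

private theorem gam {A m : ℕ} (hm : 1 ≤ m) :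
    ∫ y in Ioi (0 : ℝ), y ^ (2 * A) * Real.exp (-(2 * Real.pi * m * y)) =
      ((2 * A).factorial : ℝ) / (2 * Real.pi * m) ^ (2 * A + 1) := by
  have hr : 0 < 2 * Real.pi * (m : ℝ) := by
    have : (0 : ℝ) < m := by exact_mod_cast hm
    positivity
  have h := Real.integral_rpow_mul_exp_neg_mul_Ioi (a := (2 * A : ℕ) + 1) (r := 2 * Real.pi * m)
    (by positivity) hr
  have e1 : ∫ y in Ioi (0 : ℝ), y ^ (2 * A) * Real.exp (-(2 * Real.pi * m * y)) =
      ∫ y in Ioi (0 : ℝ), y ^ ((((2 * A : ℕ) : ℝ) + 1) - 1) *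
        Real.exp (-(2 * Real.pi * m * y)) := by
    refine setIntegral_congr_fun measurableSet_Ioi fun y _ => ?_
    have e2 : (((2 * A : ℕ) : ℝ) + 1) - 1 = ((2 * A : ℕ) : ℝ) := by ring
    show y ^ (2 * A) * Real.exp (-(2 * Real.pi * m * y)) = y ^ ((((2 * A : ℕ) : ℝ) + 1) - 1) *
        Real.exp (-(2 * Real.pi * m * y))
    rw [e2, Real.rpow_natCast]
  rw [e1, h]
  rw [Real.Gamma_nat_eq_factorial, one_div, Real.inv_rpow hr.le]
  have e3 : (((2 * A : ℕ) : ℝ) + 1) = ((2 * A + 1 : ℕ) : ℝ) := by push_cast; ring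
  rw [e3, Real.rpow_natCast]
  field_simp

private theorem gam_pos {A m : ℕ} (hm : 1 ≤ m) :
    0 < ((2 * A).factorial : ℝ) / (2 * Real.pi * m) ^ (2 * A + 1) := by
  have h1 : (0 : ℝ) < m := by exact_mod_cast hm
  have h2 : (0 : ℝ) < (2 * A).factorial := by exact_mod_cast Nat.factorial_pos _
  positivity

private theorem gint {A m : ℕ} (hm : 1 ≤ m) :
    IntegrableOn (fun y : ℝ => y ^ (2 * A) * Real.exp (-(2 * Real.pi * m * y))) (Ioi (0 : ℝ)) := by
  by_contra h
  have h1 := gam (A := A) hm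
  rw [integral_undef h] at h1
  exact (gam_pos (A := A) hm).ne h1

/-- NHT. -/
theorem hNHT : StNHT := by
  intro hK hB N hN A f hA
  have hs := hB N hN A f hA
  refine ⟨hs, fun x => ?_⟩
  have h0 : fcK f 0 = 0 := (hK N hN _ f Complex.I (by simp)).1
  -- the terms of the series
  have hF : ∀ (m : ℕ) (y : ℝ), fcK f m * Complex.exp (2 * Real.pi * Complex.I * m *
      (x + y * Complex.I)) * (y : ℂ) ^ (2 * A) =
      (fcK f m * Complex.exp (2 * Real.pi * Complex.I * m * x)) *
        ((y ^ (2 * A) * Real.exp (-(2 * Real.pi * m * y)) : ℝ) : ℂ) := by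
    intro m y
    have e : (2 * Real.pi * Complex.I * m * (x + y * Complex.I) : ℂ) =
        2 * Real.pi * Complex.I * m * x + ((-(2 * Real.pi * m * y) : ℝ) : ℂ) := by
      have hI : Complex.I * Complex.I = -1 := Complex.I_mul_I
      push_cast
      linear_combination (2 * Real.pi * m * y) * hI
    rw [e, Complex.exp_add, ← Complex.ofReal_exp]
    push_cast
    ring
  have hnx : ∀ m : ℕ, ‖Complex.exp (2 * Real.pi * Complex.I * m * x)‖ = 1 := by
    intro m
    have e' : (2 * Real.pi * Complex.I * m * x : ℂ) =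
        ((2 * Real.pi * m * x : ℝ) : ℂ) * Complex.I := by
      push_cast
      ring
    rw [e', Complex.norm_exp_ofReal_mul_I]
  have hint : ∀ m : ℕ, Integrable (fun y : ℝ => fcK f m * Complex.exp (2 * Real.pi * Complex.I * m *
      (x + y * Complex.I)) * (y : ℂ) ^ (2 * A)) (volume.restrict (Ioi (0 : ℝ))) := by
    intro m
    simp only [hF]
    rcases Nat.eq_zero_or_pos m with rfl | hm
    · simp only [h0, zero_mul]
      exact integrable_zero _ _ _
    · exact ((gint (A := A) hm).ofReal).const_mul _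
  have hval : ∀ m : ℕ, ∫ y in Ioi (0 : ℝ), fcK f m * Complex.exp (2 * Real.pi * Complex.I * m *
      (x + y * Complex.I)) * (y : ℂ) ^ (2 * A) =
      fcK f m * ((2 * A).factorial / (2 * Real.pi * m) ^ (2 * A + 1) : ℝ) *
        Complex.exp (2 * Real.pi * Complex.I * m * x) := by
    intro m
    simp only [hF]
    rcases Nat.eq_zero_or_pos m with rfl | hm
    · simp [h0]
    · rw [integral_const_mul, integral_complex_ofReal, gam hm]
      ring
  have hnval : ∀ m : ℕ, ∫ y in Ioi (0 : ℝ), ‖fcK f m * Complex.exp (2 * Real.pi * Complex.I * m *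
      (x + y * Complex.I)) * (y : ℂ) ^ (2 * A)‖ =
      (‖fcK f m‖ / (m : ℝ) ^ (2 * A + 1)) *
        ((2 * A).factorial / (2 * Real.pi) ^ (2 * A + 1)) := by
    intro m
    simp only [hF]
    rcases Nat.eq_zero_or_pos m with rfl | hm
    · simp [h0]
    · have e1 : ∀ y ∈ Ioi (0 : ℝ), ‖fcK f m * Complex.exp (2 * Real.pi * Complex.I * m * x) *
          ((y ^ (2 * A) * Real.exp (-(2 * Real.pi * m * y)) : ℝ) : ℂ)‖ =
          ‖fcK f m‖ * (y ^ (2 * A) * Real.exp (-(2 * Real.pi * m * y))) := by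
        intro y hy
        have hy' : (0 : ℝ) < y := hy
        rw [norm_mul, norm_mul, hnx, mul_one, Complex.norm_real,
          Real.norm_of_nonneg (by positivity)]
      rw [setIntegral_congr_fun measurableSet_Ioi e1, integral_const_mul, gam hm, mul_pow]
      have hm' : (m : ℝ) ≠ 0 := by
        have : (0 : ℝ) < m := by exact_mod_cast hm
        exact this.ne'
      have hpi := Real.pi_pos.ne'
      field_simp
  have hmain := hasSum_integral_of_summable_integral_norm (μ := volume.restrict (Ioi (0 : ℝ)))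
    (F := fun (m : ℕ) (y : ℝ) => fcK f m * Complex.exp (2 * Real.pi * Complex.I * m *
      (x + y * Complex.I)) * (y : ℂ) ^ (2 * A)) hint
    (by
      simp only [hnval]
      exact hs.mul_right _)
  simp only [hval] at hmain
  have hHK : ∫ y in Ioi (0 : ℝ), (∑' m : ℕ, fcK f m * Complex.exp (2 * Real.pi * Complex.I * m *
      (x + y * Complex.I)) * (y : ℂ) ^ (2 * A)) = HK A f x := by
    unfold HK
    refine setIntegral_congr_fun measurableSet_Ioi fun y hy => ?_
    have h2 := (hK N hN _ f (x + y * Complex.I) (by simpa using hy)).2.2.1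
    exact (h2.mul_right ((y : ℂ) ^ (2 * A))).tsum_eq
  rw [hHK] at hmain
  exact hmain

end Pool.Agent.Helper88.TN
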